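import Pool.Agent.LHF.VN

set_option autoImplicit false
set_option linter.unusedSectionVars false
set_option linter.unusedVariables false
set_option linter.style.haveILetI false

/-!
# LO65/Contract: commutator contraction (Shalom-Tao)

`G` a group with a finite symmetric generating set `S`, `ρ : G →* A` a homomorphism into a finite dimensional
normed algebra with `‖ρ g‖ ≤ 1` for all `g`.  If the number of values `ρ g`, `|g|_S ≤ n`, is at most `C n^d`, then
`G / ker ρ` is virtually nilpotent.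
-/

namespace Pool.LO65

open Pool.Agent.LHF
open scoped commutatorElement

section words
variable {G : Type*} [Group G] (S : Set G)

/-- `g` is a product of at most `n` elements of `S` -/
def Wd (n : ℕ) (g : G) : Prop := ∃ l : List G, (∀ s ∈ l, s ∈ S) ∧ l.length ≤ n ∧ l.prod = g

variable {S}

lemma Wd.mono {m n : ℕ} {g : G} (h : Wd S m g) (hmn : m ≤ n) : Wd S n g := by
  obtain ⟨l, h1, h2, h3⟩ := h
  exact ⟨l, h1, h2.trans hmn, h3⟩

lemma Wd.one (n : ℕ) : Wd S n (1 : G) := ⟨[], by simp, by simp, rfl⟩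

lemma Wd.mul {m n : ℕ} {g h : G} (hg : Wd S m g) (hh : Wd S n h) : Wd S (m + n) (g * h) := by
  obtain ⟨l, h1, h2, rfl⟩ := hg
  obtain ⟨l', h1', h2', rfl⟩ := hh
  refine ⟨l ++ l', ?_, by rw [List.length_append]; omega, by rw [List.prod_append]⟩
  intro s hs
  rcases List.mem_append.mp hs with h | h
  · exact h1 s h
  · exact h1' s h

lemma Wd.inv (hS : ∀ s ∈ S, s⁻¹ ∈ S) {n : ℕ} {g : G} (hg : Wd S n g) : Wd S n g⁻¹ := by
  obtain ⟨l, h1, h2, rfl⟩ := hg
  refine ⟨(l.map (·⁻¹)).reverse, ?_, by simpa using h2, by rw [List.prod_inv_reverse]⟩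
  intro s hs
  rw [List.mem_reverse, List.mem_map] at hs
  obtain ⟨t, ht, rfl⟩ := hs
  exact hS t (h1 t ht)

lemma Wd.pow {n : ℕ} {g : G} (hg : Wd S n g) (a : ℕ) : Wd S (a * n) (g ^ a) := by
  induction a with
  | zero => rw [pow_zero, zero_mul]; exact Wd.one 0
  | succ a ih => rw [pow_succ, Nat.succ_mul]; exact ih.mul hg

lemma Wd.comm (hS : ∀ s ∈ S, s⁻¹ ∈ S) {m n : ℕ} {g h : G} (hg : Wd S m g) (hh : Wd S n h) :
    Wd S (2 * m + 2 * n) ⁅g, h⁆ := by
  rw [commutatorElement_def]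
  exact (((hg.mul hh).mul (hg.inv hS)).mul (hh.inv hS)).mono (by omega)

lemma exists_wd (hS : ∀ s ∈ S, s⁻¹ ∈ S) (hgen : Subgroup.closure S = ⊤) (g : G) : ∃ n, Wd S n g := by
  have hg : g ∈ Subgroup.closure S := by rw [hgen]; trivial
  induction hg using Subgroup.closure_induction with
  | mem s hs => exact ⟨1, [s], by simpa using hs, by simp, by simp⟩
  | one => exact ⟨0, Wd.one 0⟩
  | mul a b _ _ iha ihb =>
    obtain ⟨m, hm⟩ := iha
    obtain ⟨n, hn⟩ := ihb
    exact ⟨m + n, hm.mul hn⟩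
  | inv a _ iha =>
    obtain ⟨m, hm⟩ := iha
    exact ⟨m, hm.inv hS⟩

lemma wd_finite (hfin : S.Finite) (n : ℕ) : {g : G | Wd S n g}.Finite := by
  have h1 : {g : G | Wd S n g} ⊆ (fun l : List G => l.prod) '' {l : List G | (∀ s ∈ l, s ∈ S) ∧ l.length ≤ n} := by
    rintro g ⟨l, h1, h2, h3⟩
    exact ⟨l, ⟨h1, h2⟩, h3⟩
  refine Set.Finite.subset (Set.Finite.image _ ?_) h1
  have h2 : {l : List G | (∀ s ∈ l, s ∈ S) ∧ l.length ≤ n} =
      ⋃ k ∈ Finset.range (n + 1), {l : List G | l.length = k ∧ ∀ s ∈ l, s ∈ S} := by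
    ext l
    simp only [Set.mem_ofPred_eq, Set.mem_iUnion, Finset.mem_range, exists_prop]
    constructor
    · rintro ⟨h3, h4⟩; exact ⟨l.length, by omega, rfl, h3⟩
    · rintro ⟨k, hk, h3, h4⟩; exact ⟨h4, by omega⟩
  rw [h2]
  refine Set.Finite.biUnion (Finset.finite_toSet _) ?_
  intro k hk
  clear hk
  induction k with
  | zero =>
    refine (Set.finite_singleton ([] : List G)).subset ?_
    rintro l ⟨h3, -⟩
    exact List.length_eq_zero_iff.mp h3
  | succ k ih =>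
    refine ((hfin.prod ih).image (fun p : G × List G => p.1 :: p.2)).subset ?_
    rintro l ⟨h3, h4⟩
    cases l with
    | nil => simp at h3
    | cons a l =>
      refine ⟨(a, l), ⟨h4 a (by simp), ?_, ?_⟩, rfl⟩
      · simpa using h3
      · intro s hs; exact h4 s (by simp [hs])

end words

section algebra
variable {G : Type*} [Group G] {A : Type*} [NormedRing A]
  (ρ : G →* A) (hρ : ∀ g, ‖ρ g‖ ≤ 1)

/-- distance to the identity -/
noncomputable def dl (g : G) : ℝ := ‖ρ g - 1‖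

lemma dl_nonneg (g : G) : 0 ≤ dl ρ g := norm_nonneg _

lemma dl_one : dl ρ 1 = 0 := by unfold dl; rw [map_one, sub_self, norm_zero]

include hρ

lemma dl_mul (g h : G) : dl ρ (g * h) ≤ dl ρ g + dl ρ h := by
  unfold dl
  have e : ρ (g * h) - 1 = ρ g * (ρ h - 1) + (ρ g - 1) := by rw [map_mul]; noncomm_ring
  rw [e]
  refine (norm_add_le _ _).trans ?_
  have h1 : ‖ρ g * (ρ h - 1)‖ ≤ 1 * ‖ρ h - 1‖ :=
    (norm_mul_le _ _).trans (mul_le_mul_of_nonneg_right (hρ g) (norm_nonneg _))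
  linarith

lemma dl_inv (g : G) : dl ρ g⁻¹ = dl ρ g := by
  have key : ∀ g : G, dl ρ g⁻¹ ≤ dl ρ g := by
    intro g
    unfold dl
    have e : ρ g⁻¹ - 1 = -(ρ g⁻¹ * (ρ g - 1)) := by
      rw [mul_sub, ← map_mul, inv_mul_cancel, map_one, mul_one]; noncomm_ring
    rw [e, norm_neg]
    calc ‖ρ g⁻¹ * (ρ g - 1)‖ ≤ ‖ρ g⁻¹‖ * ‖ρ g - 1‖ := norm_mul_le _ _
      _ ≤ 1 * ‖ρ g - 1‖ := mul_le_mul_of_nonneg_right (hρ _) (norm_nonneg _)
      _ = _ := one_mul _
  apply le_antisymm (key g)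
  have := key g⁻¹
  rwa [inv_inv] at this

lemma dl_comm (g h : G) : dl ρ ⁅g, h⁆ ≤ 2 * dl ρ g * dl ρ h := by
  unfold dl
  have e : ρ ⁅g, h⁆ - 1 = ((ρ g - 1) * (ρ h - 1) - (ρ h - 1) * (ρ g - 1)) * ρ (g⁻¹ * h⁻¹) := by
    have e1 : (ρ g - 1) * (ρ h - 1) - (ρ h - 1) * (ρ g - 1) = ρ (g * h) - ρ (h * g) := by
      rw [map_mul, map_mul]; noncomm_ring
    rw [e1, sub_mul, ← map_mul, ← map_mul, commutatorElement_def]
    have e2 : h * g * (g⁻¹ * h⁻¹) = 1 := by group
    have e3 : g * h * (g⁻¹ * h⁻¹) = g * h * g⁻¹ * h⁻¹ := by group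
    rw [e2, e3, map_one]
  rw [e]
  have h1 : ‖((ρ g - 1) * (ρ h - 1) - (ρ h - 1) * (ρ g - 1))‖ ≤ 2 * ‖ρ g - 1‖ * ‖ρ h - 1‖ := by
    refine (norm_sub_le _ _).trans ?_
    have h2 := norm_mul_le (ρ g - 1) (ρ h - 1)
    have h3 := norm_mul_le (ρ h - 1) (ρ g - 1)
    nlinarith
  calc _ ≤ ‖((ρ g - 1) * (ρ h - 1) - (ρ h - 1) * (ρ g - 1))‖ * ‖ρ (g⁻¹ * h⁻¹)‖ := norm_mul_le _ _
    _ ≤ ‖((ρ g - 1) * (ρ h - 1) - (ρ h - 1) * (ρ g - 1))‖ * 1 :=
        mul_le_mul_of_nonneg_left (hρ _) (norm_nonneg _)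
    _ ≤ _ := by rw [mul_one]; exact h1

lemma dl_pow (g : G) (a : ℕ) : dl ρ (g ^ a) ≤ a * dl ρ g := by
  induction a with
  | zero => rw [pow_zero, dl_one]; simp
  | succ a ih =>
    rw [pow_succ]
    refine (dl_mul ρ hρ _ _).trans ?_
    push_cast
    linarith

lemma pow_lin (g : G) (a : ℕ) : ‖ρ (g ^ a) - 1 - (a : ℤ) • (ρ g - 1)‖ ≤ a ^ 2 * dl ρ g ^ 2 := by
  induction a with
  | zero => simp
  | succ a ih =>
    have e : ρ (g ^ (a + 1)) - 1 - ((a + 1 : ℕ) : ℤ) • (ρ g - 1) =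
        (ρ (g ^ a) - 1 - (a : ℤ) • (ρ g - 1)) + (ρ (g ^ a) - 1) * (ρ g - 1) := by
      rw [pow_succ, map_mul]
      push_cast
      rw [add_smul, one_smul]
      noncomm_ring
    rw [e]
    refine (norm_add_le _ _).trans ?_
    have h1 : ‖(ρ (g ^ a) - 1) * (ρ g - 1)‖ ≤ (a * dl ρ g) * dl ρ g :=
      (norm_mul_le _ _).trans (mul_le_mul_of_nonneg_right (dl_pow ρ hρ g a) (norm_nonneg _))
    have h2 := dl_nonneg ρ g
    push_cast
    have h3 : (0 : ℝ) ≤ (a : ℝ) := by positivity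
    nlinarith [mul_nonneg h3 (mul_nonneg h2 h2), mul_nonneg h2 h2]

lemma dl_pow_ge [NormedAlgebra ℝ A] (g : G) (a : ℕ) : a * dl ρ g - a ^ 2 * dl ρ g ^ 2 ≤ dl ρ (g ^ a) := by
  have h1 := pow_lin ρ hρ g a
  have h2 : ‖(a : ℤ) • (ρ g - 1)‖ = a * dl ρ g := by
    have : ((a : ℤ) • (ρ g - 1) : A) = (a : ℝ) • (ρ g - 1) := by
      rw [← Int.cast_smul_eq_zsmul ℝ]; norm_cast
    rw [this, norm_smul]
    unfold dl
    simp
  have h3 : ‖(a : ℤ) • (ρ g - 1)‖ ≤ ‖ρ (g ^ a) - 1‖ + ‖ρ (g ^ a) - 1 - (a : ℤ) • (ρ g - 1)‖ := by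
    have : (a : ℤ) • (ρ g - 1) = (ρ (g ^ a) - 1) - (ρ (g ^ a) - 1 - (a : ℤ) • (ρ g - 1)) := by abel
    conv_lhs => rw [this]
    exact norm_sub_le _ _
  rw [h2] at h3
  have : dl ρ (g ^ a) = ‖ρ (g ^ a) - 1‖ := rfl
  rw [this]
  linarith

end algebra

section products
variable {G : Type*} [Group G]

/-- the ordered product `h 0 ^ e 0 * h 1 ^ e 1 * ...` of length `n` -/
def pr : (ℕ → G) → (ℕ → ℕ) → ℕ → G
  | _, _, 0 => 1
  | h, e, n + 1 => h 0 ^ e 0 * pr (fun j => h (j + 1)) (fun j => e (j + 1)) n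

variable {A : Type*} [NormedRing A] [NormedAlgebra ℝ A] (ρ : G →* A) (hρ : ∀ g, ‖ρ g‖ ≤ 1)
include hρ

lemma dl_pr {ε : ℝ} {M : ℕ} (hε : 4 * ε ≤ 1) (hε0 : 0 ≤ ε) (n : ℕ) :
    ∀ (h : ℕ → G) (e : ℕ → ℕ), (∀ j, dl ρ (h (j + 1)) ≤ 2 * ε * dl ρ (h j)) → (∀ j, e j ≤ M) →
      dl ρ (pr h e n) ≤ 2 * M * dl ρ (h 0) := by
  induction n with
  | zero =>
    intro h e _ _
    rw [pr, dl_one]
    have := dl_nonneg ρ (h 0)
    positivity
  | succ n ih =>
    intro h e hh he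
    rw [pr]
    refine (dl_mul ρ hρ _ _).trans ?_
    have h1 := dl_pow ρ hρ (h 0) (e 0)
    have h2 := ih (fun j => h (j + 1)) (fun j => e (j + 1)) (fun j => hh (j + 1)) (fun j => he (j + 1))
    have h3 := hh 0
    have h4 : ((e 0 : ℕ) : ℝ) ≤ M := by exact_mod_cast he 0
    have h5 := dl_nonneg ρ (h 0)
    have h6 : (0 : ℝ) ≤ (M : ℝ) := by positivity
    simp only [zero_add] at h2 h3
    have h7 : (e 0 : ℝ) * dl ρ (h 0) ≤ M * dl ρ (h 0) := mul_le_mul_of_nonneg_right h4 h5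
    have h8 : 2 * (M : ℝ) * dl ρ (h 1) ≤ 2 * M * (2 * ε * dl ρ (h 0)) :=
      mul_le_mul_of_nonneg_left h3 (by positivity)
    have h9 : 2 * (M : ℝ) * (2 * ε * dl ρ (h 0)) = (4 * ε) * (M * dl ρ (h 0)) := by ring
    have h10 : (4 * ε) * (M * dl ρ (h 0)) ≤ 1 * (M * dl ρ (h 0)) :=
      mul_le_mul_of_nonneg_right hε (by positivity)
    linarith

/-- the products are different -/
lemma pr_inj {ε : ℝ} {M : ℕ} (hM : 1 ≤ M) (hε : 10 * M * ε ≤ 1) (hε0 : 0 ≤ ε) (n : ℕ) :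
    ∀ (h : ℕ → G) (e e' : ℕ → ℕ), (∀ j, dl ρ (h (j + 1)) ≤ 2 * ε * dl ρ (h j)) →
      (∀ j < n, 0 < dl ρ (h j)) → dl ρ (h 0) ≤ ε → (∀ j, e j ≤ M) → (∀ j, e' j ≤ M) →
      ρ (pr h e n) = ρ (pr h e' n) → ∀ j < n, e j = e' j := by
  have hM' : (1 : ℝ) ≤ M := by exact_mod_cast hM
  have hε4 : 4 * ε ≤ 1 := by nlinarith
  have key : ∀ (n : ℕ) (h : ℕ → G) (e e' : ℕ → ℕ), (∀ j, dl ρ (h (j + 1)) ≤ 2 * ε * dl ρ (h j)) →
      (0 < dl ρ (h 0)) → dl ρ (h 0) ≤ ε → (∀ j, e j ≤ M) → (∀ j, e' j ≤ M) →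
      ρ (pr h e (n + 1)) = ρ (pr h e' (n + 1)) → ¬ e 0 < e' 0 := by
    intro n h e e' hh hpos hle he he' heq hlt
    rw [pr, pr] at heq
    set x := pr (fun j => h (j + 1)) (fun j => e (j + 1)) n with hx
    set y := pr (fun j => h (j + 1)) (fun j => e' (j + 1)) n with hy
    obtain ⟨a, ha⟩ := Nat.exists_eq_add_of_lt hlt
    set b := a + 1 with hb
    have hb' : e' 0 = e 0 + b := by omega
    have hbM : b ≤ M := by have := he' 0; omega
    have hb1 : 1 ≤ b := by omega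
    have h1 : ρ (h 0 ^ b) = ρ (x * y⁻¹) := by
      rw [hb', pow_add] at heq
      have h2 : ρ ((h 0 ^ e 0)⁻¹ * (h 0 ^ e 0 * x) * y⁻¹) = ρ ((h 0 ^ e 0)⁻¹ * (h 0 ^ e 0 * h 0 ^ b * y) * y⁻¹) := by
        rw [map_mul, map_mul, heq, ← map_mul, ← map_mul]
      have e1 : (h 0 ^ e 0)⁻¹ * (h 0 ^ e 0 * x) * y⁻¹ = x * y⁻¹ := by group
      have e2 : (h 0 ^ e 0)⁻¹ * (h 0 ^ e 0 * h 0 ^ b * y) * y⁻¹ = h 0 ^ b := by group
      rw [e1, e2] at h2
      exact h2.symm
    have h2 : dl ρ (h 0 ^ b) = dl ρ (x * y⁻¹) := by unfold dl; rw [h1]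
    have h3 := dl_pow_ge ρ hρ (h 0) b
    have h4 := dl_mul ρ hρ x y⁻¹
    rw [dl_inv ρ hρ] at h4
    have h5 := dl_pr ρ hρ hε4 hε0 n (fun j => h (j + 1)) (fun j => e (j + 1)) (M := M)
      (fun j => hh (j + 1)) (fun j => he (j + 1))
    have h6 := dl_pr ρ hρ hε4 hε0 n (fun j => h (j + 1)) (fun j => e' (j + 1)) (M := M)
      (fun j => hh (j + 1)) (fun j => he' (j + 1))
    rw [← hx] at h5
    rw [← hy] at h6
    simp only [zero_add] at h5 h6
    have h7 := hh 0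
    simp only [zero_add] at h7
    set D := dl ρ (h 0) with hD
    have h8 : 2 * (M : ℝ) * dl ρ (h 1) ≤ 2 * M * (2 * ε * D) :=
      mul_le_mul_of_nonneg_left h7 (by positivity)
    -- lower bound
    have hbr : (1 : ℝ) ≤ b := by exact_mod_cast hb1
    have hbMr : (b : ℝ) ≤ M := by exact_mod_cast hbM
    have h9 : (b : ℝ) * D - b ^ 2 * D ^ 2 ≥ D * (9 / 10) := by
      have h10 : (b : ℝ) * D ≤ 1 / 10 := by
        have : (b : ℝ) * D ≤ M * ε := mul_le_mul hbMr hle hpos.le (by positivity)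
        linarith
      have h11 : (b : ℝ) * D - b ^ 2 * D ^ 2 = (b * D) * (1 - b * D) := by ring
      rw [h11]
      have h12 : D ≤ b * D := by nlinarith
      nlinarith
    have h13 : 2 * (M : ℝ) * (2 * ε * D) = (10 * M * ε) * (D * (4 / 10)) := by ring
    have h14 : (10 * M * ε) * (D * (4 / 10)) ≤ 1 * (D * (4 / 10)) :=
      mul_le_mul_of_nonneg_right hε (by positivity)
    linarith
  induction n with
  | zero => intro h e e' _ _ _ _ _ _ j hj; omega
  | succ n ih =>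
    intro h e e' hh hpos hle he he' heq j hj
    have h0 : e 0 = e' 0 := by
      rcases lt_trichotomy (e 0) (e' 0) with h1 | h1 | h1
      · exact absurd h1 (key n h e e' hh (hpos 0 (by omega)) hle he he' heq)
      · exact h1
      · exact absurd h1 (key n h e' e hh (hpos 0 (by omega)) hle he' he heq.symm)
    cases j with
    | zero => exact h0
    | succ j =>
      have h2 : ρ (pr (fun j => h (j + 1)) (fun j => e (j + 1)) n) =
          ρ (pr (fun j => h (j + 1)) (fun j => e' (j + 1)) n) := by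
        rw [pr, pr, ← h0] at heq
        have h3 : ∀ z : G, ρ z = ρ (h 0 ^ e 0)⁻¹ * ρ (h 0 ^ e 0 * z) := by
          intro z; rw [← map_mul]; congr 1; group
        rw [h3 (pr (fun j => h (j + 1)) (fun j => e (j + 1)) n), heq, ← h3]
      have h4 := hh 0
      have h5 := dl_nonneg ρ (h 0)
      refine ih (fun j => h (j + 1)) (fun j => e (j + 1)) (fun j => e' (j + 1)) (fun j => hh (j + 1))
        (fun j hj => hpos (j + 1) (by omega)) ?_ (fun j => he (j + 1)) (fun j => he' (j + 1)) h2 j (by omega)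
      simp only [zero_add] at h4 ⊢
      nlinarith

end products

section chains
variable {G : Type*} [Group G]

/-- left-normed commutators -/
def chn (s : ℕ → G) : ℕ → G
  | 0 => s 0
  | n + 1 => ⁅chn s n, s (n + 1)⁆

/-- if all left-normed commutators of weight `n + 1` in generators of `H` are in `K` (normalised by `H`), then
`H.lowerCentralSeries n ≤ K` -/
lemma lcs_le (T : Set G) (n : ℕ) : ∀ (K : Subgroup G),
    (∀ k ∈ K, ∀ h ∈ Subgroup.closure T, h * k * h⁻¹ ∈ K) →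
    (∀ s : ℕ → G, (∀ j, s j ∈ T) → chn s n ∈ K) →
    (Subgroup.closure T).lowerCentralSeries n ≤ K := by
  set H := Subgroup.closure T with hH
  induction n with
  | zero =>
    intro K _ h
    rw [Subgroup.lowerCentralSeries_zero, hH, Subgroup.closure_le]
    intro t ht
    exact h (fun _ => t) (fun _ => ht)
  | succ n ih =>
    intro K hK h
    let K' : Subgroup G :=
      { carrier := {x | x ∈ H ∧ ∀ g ∈ H, ⁅x, g⁆ ∈ K}
        one_mem' := ⟨H.one_mem, fun g _ => by rw [commutatorElement_one_left]; exact K.one_mem⟩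
        mul_mem' := by
          rintro x y ⟨hx, hx'⟩ ⟨hy, hy'⟩
          refine ⟨H.mul_mem hx hy, fun g hg => ?_⟩
          have e : ⁅x * y, g⁆ = (x * ⁅y, g⁆ * x⁻¹) * ⁅x, g⁆ := by
            simp only [commutatorElement_def]; group
          rw [e]
          exact K.mul_mem (hK _ (hy' g hg) x hx) (hx' g hg)
        inv_mem' := by
          rintro x ⟨hx, hx'⟩
          refine ⟨H.inv_mem hx, fun g hg => ?_⟩
          have e : ⁅x⁻¹, g⁆ = x⁻¹ * (⁅x, g⁆)⁻¹ * x⁻¹⁻¹ := by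
            simp only [commutatorElement_def]; group
          rw [e]
          exact hK _ (K.inv_mem (hx' g hg)) _ (H.inv_mem hx) }
    have hK'mem : ∀ x, x ∈ K' ↔ x ∈ H ∧ ∀ g ∈ H, ⁅x, g⁆ ∈ K := fun x => Iff.rfl
    have h1 : H.lowerCentralSeries n ≤ K' := by
      apply ih K'
      · rintro k hk g hg
        rw [hK'mem] at hk ⊢
        refine ⟨H.mul_mem (H.mul_mem hg hk.1) (H.inv_mem hg), fun z hz => ?_⟩
        have e : ⁅g * k * g⁻¹, z⁆ = g * ⁅k, g⁻¹ * z * g⁆ * g⁻¹ := by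
          simp only [commutatorElement_def]; group
        rw [e]
        exact hK _ (hk.2 _ (H.mul_mem (H.mul_mem (H.inv_mem hg) hz) hg)) g hg
      · intro s hs
        rw [hK'mem]
        have hmem : ∀ m, chn s m ∈ H := by
          intro m
          induction m with
          | zero => exact Subgroup.subset_closure (hs 0)
          | succ m ihm =>
            rw [chn, commutatorElement_def]
            have h2 : s (m + 1) ∈ H := Subgroup.subset_closure (hs (m + 1))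
            exact H.mul_mem (H.mul_mem (H.mul_mem ihm h2) (H.inv_mem ihm)) (H.inv_mem h2)
        refine ⟨hmem n, fun g hg => ?_⟩
        rw [hH] at hg
        induction hg using Subgroup.closure_induction with
        | mem t ht =>
          have h2 := h (fun j => if j ≤ n then s j else t) (fun j => by
            by_cases hj : j ≤ n
            · simp only [hj, if_true]; exact hs j
            · simp only [hj, if_false]; exact ht)
          have h3 : ∀ m ≤ n, chn (fun j => if j ≤ n then s j else t) m = chn s m := by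
            intro m
            induction m with
            | zero => intro _; simp [chn]
            | succ m ihm =>
              intro hm
              rw [chn, chn, ihm (by omega)]
              simp only [hm, if_true]
          rw [chn, h3 n le_rfl] at h2
          simpa using h2
        | one => rw [commutatorElement_one_right]; exact K.one_mem
        | mul a b ha hb iha ihb =>
          have e : ⁅chn s n, a * b⁆ = ⁅chn s n, a⁆ * (a * ⁅chn s n, b⁆ * a⁻¹) := by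
            simp only [commutatorElement_def]; group
          rw [e]
          exact K.mul_mem iha (hK _ ihb a ha)
        | inv a ha iha =>
          have e : ⁅chn s n, a⁻¹⁆ = a⁻¹ * (⁅chn s n, a⁆)⁻¹ * a⁻¹⁻¹ := by
            simp only [commutatorElement_def]; group
          rw [e]
          exact hK _ (K.inv_mem iha) _ (H.inv_mem ha)
    rw [Subgroup.lowerCentralSeries_succ, Subgroup.commutator_le]
    intro x hx g hg
    exact ((hK'mem x).mp (h1 hx)).2 g hg

end chains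

section main
variable {G : Type*} [Group G] {A : Type*} [NormedRing A] [NormedAlgebra ℝ A] (ρ : G →* A)
  (hρ : ∀ g, ‖ρ g‖ ≤ 1)
include hρ

lemma eps_finiteIndex [FiniteDimensional ℝ A] {ε : ℝ} (hε : 0 < ε) :
    (Subgroup.closure {g : G | dl ρ g < ε}).FiniteIndex := by
  classical
  haveI : ProperSpace A := FiniteDimensional.proper ℝ A
  have hc : TotallyBounded (Metric.closedBall (0 : A) 1) := (isCompact_closedBall 0 1).totallyBounded
  obtain ⟨t, ht, hcov⟩ := Metric.totallyBounded_iff.mp hc (ε / 2) (by linarith)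
  have h1 : ∀ g : G, ∃ y ∈ t, dist (ρ g) y < ε / 2 := by
    intro g
    have h2 : ρ g ∈ Metric.closedBall (0 : A) 1 := by
      rw [mem_closedBall_zero_iff]; exact hρ g
    have h3 := hcov h2
    simp only [Set.mem_iUnion, Metric.mem_ball, exists_prop] at h3
    exact h3
  choose f hf hf' using h1
  apply finiteIndex_of_finite_image (F := ⊤) inferInstance f
    (ht.subset (by rintro _ ⟨g, -, rfl⟩; exact hf g))
  intro x _ y _ hxy
  apply Subgroup.subset_closure
  show dl ρ (x⁻¹ * y) < ε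
  unfold dl
  have e : ρ (x⁻¹ * y) - 1 = ρ x⁻¹ * (ρ y - ρ x) := by
    rw [mul_sub, ← map_mul, ← map_mul, inv_mul_cancel, map_one]
  rw [e]
  have h4 : ‖ρ y - ρ x‖ < ε := by
    rw [← dist_eq_norm]
    have h5 := hf' x
    have h6 := hf' y
    rw [hxy] at h5
    have := dist_triangle (ρ y) (f y) (ρ x)
    rw [dist_comm (f y)] at this
    linarith
  calc ‖ρ x⁻¹ * (ρ y - ρ x)‖ ≤ ‖ρ x⁻¹‖ * ‖ρ y - ρ x‖ := norm_mul_le _ _
    _ ≤ 1 * ‖ρ y - ρ x‖ := mul_le_mul_of_nonneg_right (hρ _) (norm_nonneg _)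
    _ < ε := by rw [one_mul]; exact h4

omit hρ in
/-- a finitely generated subgroup generated by a set is generated by a finite subset -/
lemma exists_finset_gen {B : Set G} (h : (Subgroup.closure B).FG) :
    ∃ T : Finset G, (T : Set G) ⊆ B ∧ Subgroup.closure (T : Set G) = Subgroup.closure B := by
  classical
  obtain ⟨F, hF⟩ := h
  have h1 : ∀ x ∈ Subgroup.closure B, ∃ T : Finset G, (T : Set G) ⊆ B ∧ x ∈ Subgroup.closure (T : Set G) := by
    intro x hx
    induction hx using Subgroup.closure_induction with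
    | mem s hs => exact ⟨{s}, by simpa using hs, Subgroup.subset_closure (by simp)⟩
    | one => exact ⟨∅, by simp, Subgroup.one_mem _⟩
    | mul a b _ _ iha ihb =>
      obtain ⟨T1, h1, h1'⟩ := iha
      obtain ⟨T2, h2, h2'⟩ := ihb
      refine ⟨T1 ∪ T2, by rw [Finset.coe_union]; exact Set.union_subset h1 h2, ?_⟩
      apply Subgroup.mul_mem
      · exact Subgroup.closure_mono (by rw [Finset.coe_union]; exact Set.subset_union_left) h1'
      · exact Subgroup.closure_mono (by rw [Finset.coe_union]; exact Set.subset_union_right) h2'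
    | inv a _ iha =>
      obtain ⟨T1, h1, h1'⟩ := iha
      exact ⟨T1, h1, Subgroup.inv_mem _ h1'⟩
  have h2 : ∀ x : F, ∃ T : Finset G, (T : Set G) ⊆ B ∧ (x : G) ∈ Subgroup.closure (T : Set G) := by
    intro x
    apply h1
    rw [← hF]
    exact Subgroup.subset_closure x.2
  choose T hT hT' using h2
  refine ⟨Finset.univ.biUnion T, ?_, ?_⟩
  · intro x hx
    rw [Finset.mem_coe, Finset.mem_biUnion] at hx
    obtain ⟨i, -, hi⟩ := hx
    exact hT i hi
  · apply le_antisymm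
    · apply Subgroup.closure_mono
      intro x hx
      rw [Finset.mem_coe, Finset.mem_biUnion] at hx
      obtain ⟨i, -, hi⟩ := hx
      exact hT i hi
    · rw [← hF, Subgroup.closure_le]
      intro x hx
      exact Subgroup.closure_mono (by
        intro z hz
        rw [Finset.mem_coe, Finset.mem_biUnion]
        exact ⟨⟨x, hx⟩, Finset.mem_univ _, hz⟩) (hT' ⟨x, hx⟩)

/-- the chain contracts -/
lemma chn_contract {ε : ℝ} {s : ℕ → G} (hs : ∀ j, dl ρ (s j) ≤ ε) (j : ℕ) :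
    dl ρ (chn s (j + 1)) ≤ 2 * ε * dl ρ (chn s j) := by
  rw [chn]
  refine (dl_comm ρ hρ _ _).trans ?_
  have h1 := hs (j + 1)
  have h2 := dl_nonneg ρ (chn s j)
  nlinarith

omit hρ in
/-- lengths of the chain -/
lemma chn_wd {S : Set G} (hS : ∀ s ∈ S, s⁻¹ ∈ S) {ℓ : ℕ} {s : ℕ → G} (hs : ∀ j, Wd S ℓ (s j)) (j : ℕ) :
    Wd S (3 * ℓ * 2 ^ j - 2 * ℓ) (chn s j) := by
  induction j with
  | zero => rw [chn]; exact (hs 0).mono (by omega)
  | succ j ih =>
    rw [chn]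
    refine (Wd.comm hS ih (hs (j + 1))).mono ?_
    have h1 : 1 ≤ 2 ^ j := Nat.one_le_two_pow
    have h2 : 3 * ℓ * 1 ≤ 3 * ℓ * 2 ^ j := Nat.mul_le_mul_left _ h1
    have h3 : 3 * ℓ * 2 ^ (j + 1) = 2 * (3 * ℓ * 2 ^ j) := by rw [pow_succ]; ring
    rw [h3]
    omega

omit hρ in
lemma pr_wd {S : Set G} {M ℓ : ℕ} (n : ℕ) : ∀ (h : ℕ → G) (e : ℕ → ℕ) (c : ℕ),
    (∀ j, Wd S (3 * ℓ * 2 ^ (j + c)) (h j)) → (∀ j, e j ≤ M) →
    Wd S (3 * M * ℓ * (2 ^ (n + c) - 2 ^ c)) (pr h e n) := by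
  induction n with
  | zero => intro h e c _ _; rw [pr]; exact Wd.one _
  | succ n ih =>
    intro h e c hh he
    rw [pr]
    have h1 := ih (fun j => h (j + 1)) (fun j => e (j + 1)) (c + 1)
      (fun j => by have := hh (j + 1); rwa [show j + 1 + c = j + (c + 1) by ring] at this) (fun j => he (j + 1))
    have h2 := (hh 0).pow (e 0)
    rw [zero_add] at h2
    refine (h2.mul h1).mono ?_
    have h3 : e 0 * (3 * ℓ * 2 ^ c) ≤ M * (3 * ℓ * 2 ^ c) := Nat.mul_le_mul_right _ (he 0)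
    have h4 : n + (c + 1) = n + 1 + c := by ring
    rw [h4]
    have h5 : 2 ^ (c + 1) ≤ 2 ^ (n + 1 + c) := Nat.pow_le_pow_right (by norm_num) (by omega)
    have h6 : 2 ^ (c + 1) = 2 * 2 ^ c := by rw [pow_succ]; ring
    have h7 : 2 ^ (n + 1 + c) - 2 ^ c = (2 ^ (n + 1 + c) - 2 ^ (c + 1)) + 2 ^ c := by omega
    rw [h7, Nat.mul_add]
    have h8 : 3 * M * ℓ * 2 ^ c = M * (3 * ℓ * 2 ^ c) := by ring
    omega

/-- long chains give exponentially many values -/
lemma chain_count [FiniteDimensional ℝ A] {S : Set G} (hS : ∀ s ∈ S, s⁻¹ ∈ S) (hfin : S.Finite)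
    {M ℓ : ℕ} (hM : 1 ≤ M) {ε : ℝ}
    (hε : 10 * M * ε ≤ 1) (hε0 : 0 ≤ ε) {s : ℕ → G} (hs : ∀ j, dl ρ (s j) ≤ ε) (hw : ∀ j, Wd S ℓ (s j)) (n : ℕ)
    (hn : ρ (chn s n) ≠ 1) :
    (M + 1) ^ n ≤ (ρ '' {g | Wd S (3 * M * ℓ * 2 ^ n) g}).ncard := by
  classical
  have hpos : ∀ j ≤ n, 0 < dl ρ (chn s j) := by
    by_contra hcon
    push Not at hcon
    obtain ⟨j, hj, hj'⟩ := hcon
    have h0 : ∀ k, dl ρ (chn s (j + k)) = 0 := by
      intro k
      induction k with
      | zero => exact le_antisymm hj' (dl_nonneg ρ _)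
      | succ k ih =>
        have h1 := chn_contract ρ hρ hs (j + k)
        rw [ih, mul_zero] at h1
        exact le_antisymm h1 (dl_nonneg ρ _)
    have h1 := h0 (n - j)
    rw [show j + (n - j) = n by omega] at h1
    unfold dl at h1
    rw [norm_eq_zero, sub_eq_zero] at h1
    exact hn h1
  have hcontr := chn_contract ρ hρ hs
  have hlen : ∀ j, Wd S (3 * ℓ * 2 ^ (j + 0)) (chn s j) := fun j =>
    (chn_wd hS hw j).mono (by rw [add_zero]; omega)
  let ext : (Fin n → Fin (M + 1)) → ℕ → ℕ := fun e j => if h : j < n then (e ⟨j, h⟩ : ℕ) else 0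
  have hext : ∀ e j, ext e j ≤ M := by
    intro e j
    simp only [ext]
    split_ifs with h
    · have := (e ⟨j, h⟩).2; omega
    · omega
  have hfin' : (ρ '' {g | Wd S (3 * M * ℓ * 2 ^ n) g}).Finite := (wd_finite hfin _).image _
  let F : (Fin n → Fin (M + 1)) → A := fun e => ρ (pr (chn s) (ext e) n)
  have hF : ∀ e, F e ∈ ρ '' {g | Wd S (3 * M * ℓ * 2 ^ n) g} := by
    intro e
    refine ⟨_, ?_, rfl⟩
    have := pr_wd (S := S) (M := M) (ℓ := ℓ) n (chn s) (ext e) 0 hlen (hext e)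
    refine this.mono ?_
    apply Nat.mul_le_mul_left
    rw [add_zero]
    exact Nat.sub_le _ _
  have hinj : Function.Injective F := by
    intro e e' heq
    have := pr_inj ρ hρ hM hε hε0 n (chn s) (ext e) (ext e') hcontr (fun j hj => hpos j hj.le)
      (by rw [chn]; exact hs 0) (hext e) (hext e') heq
    funext j
    have h1 := this j j.2
    simp only [ext, j.2, dif_pos] at h1
    exact Fin.ext h1
  have h1 : (Set.range F).ncard = (M + 1) ^ n := by
    rw [← Set.image_univ, Set.ncard_image_of_injective _ hinj, Set.ncard_univ, Nat.card_eq_fintype_card]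
    simp
  rw [← h1]
  exact Set.ncard_le_ncard (by rintro _ ⟨e, rfl⟩; exact hF e) hfin'

/-- **Commutator contraction.** -/
theorem vn_of_growth [FiniteDimensional ℝ A] {S : Set G} (hS : ∀ s ∈ S, s⁻¹ ∈ S) (hfin : S.Finite)
    (hgen : Subgroup.closure S = ⊤) (C : ℝ) (d : ℕ)
    (hgr : ∀ n : ℕ, 1 ≤ n → ((ρ '' {g | Wd S n g}).ncard : ℝ) ≤ C * (n : ℝ) ^ d) :
    ∃ H : Subgroup G, H.FiniteIndex ∧ ∃ k : ℕ, H.lowerCentralSeries k ≤ ρ.ker := by
  classical
  set M : ℕ := 2 ^ (d + 1) with hMdef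
  have hM : 1 ≤ M := Nat.one_le_two_pow
  have hMr : (0 : ℝ) < M := by exact_mod_cast hM
  set ε : ℝ := 1 / (10 * M) with hεdef
  have hε0 : 0 < ε := by rw [hεdef]; positivity
  have hε : 10 * M * ε ≤ 1 := by rw [hεdef]; field_simp; exact le_rfl
  have hidx := eps_finiteIndex ρ hρ hε0
  haveI : Group.FG G := ⟨⟨hfin.toFinset, by simpa using hgen⟩⟩
  have hFG : (Subgroup.closure {g : G | dl ρ g < ε}).FG := by
    haveI := hidx
    rw [← Group.fg_iff_subgroup_fg]
    infer_instance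
  obtain ⟨T, hT, hTgen⟩ := exists_finset_gen hFG
  refine ⟨Subgroup.closure {g : G | dl ρ g < ε}, hidx, ?_⟩
  rw [← hTgen]
  -- lengths
  have hlen : ∃ ℓ : ℕ, ∀ t ∈ T, Wd S ℓ t := by
    choose L hL using fun g : G => exists_wd hS hgen g
    refine ⟨T.sup L, fun t ht => (hL t).mono (Finset.le_sup ht)⟩
  obtain ⟨ℓ₀, hℓ₀⟩ := hlen
  set ℓ := ℓ₀ + 1 with hℓ
  have hℓ' : ∀ t ∈ T, Wd S ℓ t := fun t ht => (hℓ₀ t ht).mono (by omega)
  -- choice of n
  obtain ⟨n, hn⟩ : ∃ n : ℕ, C * (3 * M * ℓ : ℝ) ^ d < 2 ^ n :=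
    pow_unbounded_of_one_lt _ (by norm_num)
  refine ⟨n, lcs_le (T : Set G) n ρ.ker ?_ ?_⟩
  · intro k hk h _
    exact (inferInstance : ρ.ker.Normal).conj_mem k hk h
  · intro s hs
    rw [MonoidHom.mem_ker]
    by_contra hcon
    have h1 := chain_count ρ hρ hS hfin hM hε hε0.le (s := s) (fun j => (hT (hs j)).le)
      (fun j => hℓ' _ (hs j)) n hcon
    have h2 := hgr (3 * M * ℓ * 2 ^ n) (by
      have : 1 ≤ 2 ^ n := Nat.one_le_two_pow
      have h3 : 1 ≤ 3 * M * ℓ := by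
        have : 1 ≤ M * ℓ := Nat.mul_le_mul hM (by omega : 1 ≤ ℓ)
        nlinarith
      exact Nat.mul_le_mul h3 this)
    have h3 : (((M + 1) ^ n : ℕ) : ℝ) ≤ C * ((3 * M * ℓ * 2 ^ n : ℕ) : ℝ) ^ d :=
      le_trans (by exact_mod_cast h1) h2
    push_cast at h3
    have h4 : (2 : ℝ) ^ n * (2 ^ n) ^ d ≤ ((M : ℝ) + 1) ^ n := by
      have e : (2 : ℝ) ^ n * (2 ^ n) ^ d = (2 ^ (d + 1)) ^ n := by
        rw [← pow_mul, ← pow_mul, ← pow_add]; congr 1; ring
      rw [e]
      apply pow_le_pow_left₀ (by positivity)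
      rw [hMdef]; push_cast; linarith
    have h5 : C * (3 * (M : ℝ) * ℓ * 2 ^ n) ^ d = (C * (3 * M * ℓ) ^ d) * (2 ^ n) ^ d := by
      rw [mul_pow]; ring
    rw [h5] at h3
    have h6 : (0 : ℝ) < (2 ^ n) ^ d := by positivity
    have h7 : (C * (3 * (M : ℝ) * ℓ) ^ d) * (2 ^ n) ^ d < 2 ^ n * (2 ^ n) ^ d :=
      mul_lt_mul_of_pos_right hn h6
    linarith

end main

end Pool.LO65
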