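import Pool.Agent.LHF.Kron

set_option autoImplicit false
set_option linter.unusedSectionVars false
set_option linter.unusedVariables false
set_option linter.style.haveILetI false

/-!
# LO65/Limit: Liouville, drift zero, and the limit theorem

(A) `liouville`: finite dimensional Lipschitz harmonic functions imply that bounded harmonic functions are constant.
(B) `drift_zero`: a Lipschitz `F` with `avg F = F + c` has `c = 0`.
(C) `limit_lhf`: `G`-sets of large diameter give a nonconstant Lipschitz harmonic function, invariant under a limit of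
stabilizers.
-/

namespace Pool.LO65

open Pool.Agent.LHF Filter Topology

variable {G : Type*} [Group G] {ι : Type} [Fintype ι]

/-! ### (A) Liouville -/

lemma exists_points {X : Type*} (n : ℕ) : ∀ (W : Submodule ℝ (X → ℝ)), FiniteDimensional ℝ W →
    Module.finrank ℝ W = n → ∃ F : Finset X, ∀ u ∈ W, (∀ x ∈ F, u x = 0) → u = 0 := by
  classical
  induction n using Nat.strong_induction_on with
  | _ n ih =>
    intro W hW hn
    by_cases hbot : W = ⊥
    · refine ⟨∅, fun u hu _ => ?_⟩
      rw [hbot] at hu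
      exact (Submodule.mem_bot ℝ).mp hu
    · obtain ⟨u, hu, hu0⟩ := (Submodule.ne_bot_iff W).mp hbot
      obtain ⟨x, hx⟩ := Function.ne_iff.mp hu0
      let W' : Submodule ℝ (X → ℝ) := W ⊓ LinearMap.ker (LinearMap.proj x : (X → ℝ) →ₗ[ℝ] ℝ)
      have hlt : W' < W := by
        refine lt_of_le_of_ne inf_le_left ?_
        intro h
        have h1 : u ∈ W' := by rw [h]; exact hu
        exact hx (LinearMap.mem_ker.mp h1.2)
      haveI := hW
      have hf : FiniteDimensional ℝ W' := Submodule.finiteDimensional_of_le hlt.le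
      have hlt' : Module.finrank ℝ W' < n := by rw [← hn]; exact Submodule.finrank_lt_finrank_of_lt hlt
      obtain ⟨F, hF⟩ := ih _ hlt' W' hf rfl
      refine ⟨insert x F, fun v hv hv0 => hF v ⟨hv, ?_⟩ fun y hy => hv0 y (Finset.mem_insert_of_mem hy)⟩
      exact LinearMap.mem_ker.mpr (hv0 x (Finset.mem_insert_self x F))

/-- the space of bounded harmonic functions -/
def BH (σ : ι → G) : Submodule ℝ (G → ℝ) where
  carrier := {f | avg σ f = f ∧ ∃ B, ∀ x, |f x| ≤ B}
  zero_mem' := ⟨by funext x; simp [avg], 0, by simp⟩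
  add_mem' := by
    rintro f g ⟨hf, B, hB⟩ ⟨hg, B', hB'⟩
    refine ⟨?_, B + B', fun x => (abs_add_le _ _).trans (add_le_add (hB x) (hB' x))⟩
    funext x
    have := avg_add σ f g x
    rw [hf, hg] at this
    exact this
  smul_mem' := by
    rintro c f ⟨hf, B, hB⟩
    refine ⟨?_, |c| * B, fun x => ?_⟩
    · funext x
      have := avg_smul σ c f x
      rw [hf] at this
      exact this
    · show |c * f x| ≤ _
      rw [abs_mul]
      exact mul_le_mul_of_nonneg_left (hB x) (abs_nonneg c)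

lemma bh_finite {σ : ι → G} (hfin : FinHF σ) : FiniteDimensional ℝ (BH σ) := by
  obtain ⟨V, hV, h⟩ := hfin
  haveI := hV
  have hle : BH σ ≤ V := by
    rintro f ⟨hf, B, hB⟩
    refine h f hf ⟨2 * B, fun x j => ?_⟩
    have h1 := hB (x * σ j)
    have h2 := hB x
    rw [abs_le] at h1 h2 ⊢
    constructor <;> linarith
  exact Submodule.finiteDimensional_of_le hle

/-- **(A)** bounded harmonic functions are constant -/
theorem liouville {σ : ι → G} (hσ : GenData σ) (hfin : FinHF σ) {f : G → ℝ} (hf : avg σ f = f) {B : ℝ}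
    (hB : ∀ x, |f x| ≤ B) (x y : G) : f x = f y := by
  classical
  obtain ⟨i0, hi0⟩ := hσ.lazy
  haveI : Nonempty ι := ⟨i0⟩
  haveI := bh_finite hfin
  obtain ⟨P, hP⟩ := exists_points _ (BH σ) inferInstance rfl
  -- evaluation map
  let E : BH σ →ₗ[ℝ] (P → ℝ) :=
    { toFun := fun u p => (u : G → ℝ) p
      map_add' := fun u v => rfl
      map_smul' := fun c u => rfl }
  have hE : LinearMap.ker E = ⊥ := by
    rw [LinearMap.ker_eq_bot']
    intro u hu
    apply Subtype.ext
    apply hP u u.2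
    intro z hz
    exact congrFun hu ⟨z, hz⟩
  obtain ⟨g, hg⟩ := E.exists_leftInverse_of_injective hE
  have hbd : ∀ p : P, ∃ β : ℝ, ∀ z, |((g (Pi.single p 1) : BH σ) : G → ℝ) z| ≤ β := fun p =>
    (g (Pi.single p 1)).2.2
  choose β hβ using hbd
  have hkey : ∀ u : BH σ, ∀ z, |(u : G → ℝ) z| ≤ ∑ p : P, |(u : G → ℝ) p| * β p := by
    intro u z
    have h1 : u = ∑ p : P, ((u : G → ℝ) p) • g (Pi.single p 1) := by
      have h2 : g (E u) = u := by
        have := LinearMap.congr_fun hg u
        simpa using this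
      have h3 : E u = ∑ p : P, ((u : G → ℝ) p) • (Pi.single p (1 : ℝ) : P → ℝ) := by
        funext q
        rw [Finset.sum_apply]
        simp [Pi.single_apply, E]
      conv_lhs => rw [← h2, h3, map_sum]
      simp only [map_smul]
    have h4 : (u : G → ℝ) z = ∑ p : P, (u : G → ℝ) p * ((g (Pi.single p 1) : BH σ) : G → ℝ) z := by
      conv_lhs => rw [h1]
      rw [Submodule.coe_sum, Finset.sum_apply]
      rfl
    rw [h4]
    refine (Finset.abs_sum_le_sum_abs _ _).trans (Finset.sum_le_sum fun p _ => ?_)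
    rw [abs_mul]
    exact mul_le_mul_of_nonneg_left (hβ p z) (abs_nonneg _)
  -- words for the points
  have hw : ∀ p : P, ∃ l : List ι, wprod σ l = (p : G) := fun p => hσ.gen p
  choose l hl using hw
  set cc : ℝ := (Fintype.card ι : ℝ)⁻¹ with hcc
  have hccpos : 0 < cc := inv_pos.mpr card_pos'
  have hbdd : BddAbove (Set.range f) := ⟨B, by rintro _ ⟨z, rfl⟩; exact (abs_le.mp (hB z)).2⟩
  set M : ℝ := ⨆ z, f z with hM
  have hle : ∀ z, f z ≤ M := fun z => le_ciSup hbdd z
  set C : ℝ := ∑ p : P, ((cc ^ (l p).length)⁻¹) * β p with hC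
  have hmain : ∀ ε : ℝ, 0 < ε → ∀ z, M - f z ≤ ε * C := by
    intro ε hε z
    obtain ⟨g₀, hg₀⟩ := exists_lt_of_lt_ciSup (show M - ε < ⨆ z, f z by rw [← hM]; linarith)
    set u : G → ℝ := fun x => M - f (g₀ * x) with hu
    have huh : avg σ u = u := by
      funext x
      rw [hu, avg_sub, avg_const, avg_translate, hf]
    have hu0 : ∀ x, 0 ≤ u x := fun x => by have := hle (g₀ * x); simp only [hu]; linarith
    have huB : ∃ B', ∀ x, |u x| ≤ B' := by
      refine ⟨|M| + B, fun x => ?_⟩
      simp only [hu]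
      refine (abs_sub _ _).trans ?_
      have := hB (g₀ * x)
      linarith
    have hu1 : u 1 < ε := by simp only [hu, mul_one]; linarith
    have hup : ∀ p : P, u p ≤ (cc ^ (l p).length)⁻¹ * ε := by
      intro p
      have h1 := it_ge_word σ hu0 (l p) 1
      rw [it_harm σ huh, one_mul, hl p] at h1
      rw [inv_mul_eq_div, le_div_iff₀ (by positivity)]
      have : cc ^ (l p).length * u p ≤ u 1 := h1
      linarith
    have h2 := hkey ⟨u, huh, huB⟩ (g₀⁻¹ * z)
    simp only at h2
    have h3 : u (g₀⁻¹ * z) = M - f z := by simp only [hu]; rw [mul_inv_cancel_left]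
    rw [h3] at h2
    refine (le_abs_self _).trans (h2.trans ?_)
    rw [hC, Finset.mul_sum]
    apply Finset.sum_le_sum
    intro p _
    have hβ0 : 0 ≤ β p := (abs_nonneg _).trans (hβ p 1)
    rw [abs_of_nonneg (hu0 p)]
    have := mul_le_mul_of_nonneg_right (hup p) hβ0
    nlinarith
  have hall : ∀ z, f z = M := by
    intro z
    apply le_antisymm (hle z)
    by_contra hcon
    push Not at hcon
    have hC0 : 0 ≤ C := by
      apply Finset.sum_nonneg
      intro p _
      have hβ0 : 0 ≤ β p := (abs_nonneg _).trans (hβ p 1)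
      positivity
    have h1 := hmain ((M - f z) / (2 * (C + 1))) (by
      apply div_pos <;> linarith) z
    have h2 : (M - f z) / (2 * (C + 1)) * C ≤ (M - f z) / 2 := by
      rw [div_mul_eq_mul_div, div_le_div_iff₀ (by linarith) (by norm_num)]
      nlinarith
    linarith
  rw [hall x, hall y]

/-! ### ultralimits -/

/-- the limit along an ultrafilter -/
noncomputable def ul (U : Ultrafilter ℕ) (a : ℕ → ℝ) : ℝ := limUnder (U : Filter ℕ) a

lemma ul_tendsto (U : Ultrafilter ℕ) {a : ℕ → ℝ} {B : ℝ} (h : ∀ n, |a n| ≤ B) :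
    Tendsto a U (𝓝 (ul U a)) := by
  apply tendsto_nhds_limUnder
  have hc : IsCompact (Set.Icc (-B) B) := isCompact_Icc
  have hm : Set.Icc (-B) B ∈ U.map a := by
    rw [Ultrafilter.mem_map]
    exact Filter.univ_mem' (fun n => abs_le.mp (h n))
  obtain ⟨x, -, hx⟩ := hc.ultrafilter_le_nhds' (U.map a) hm
  exact ⟨x, hx⟩

lemma ul_eq {U : Ultrafilter ℕ} {a : ℕ → ℝ} {x : ℝ} (h : Tendsto a U (𝓝 x)) : ul U a = x :=
  h.limUnder_eq

lemma tendsto_avg (σ : ι → G) {U : Filter ℕ} {a : ℕ → G → ℝ} {A : G → ℝ}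
    (h : ∀ x, Tendsto (fun n => a n x) U (𝓝 (A x))) (x : G) :
    Tendsto (fun n => avg σ (a n) x) U (𝓝 (avg σ A x)) := by
  simp only [avg_def]
  exact (tendsto_finset_sum _ fun j _ => h (x * σ j)).div_const _

/-- Cesaro sums -/
noncomputable def cs (σ : ι → G) (n : ℕ) (b : G → ℝ) (x : G) : ℝ :=
  (∑ k ∈ Finset.range (n + 1), it σ k b x) / ((n : ℝ) + 1)

section cesaro
variable {σ : ι → G} [Nonempty ι]

lemma it_bdd {b : G → ℝ} {B : ℝ} (hb : ∀ x, |b x| ≤ B) (k : ℕ) (x : G) : |it σ k b x| ≤ B := by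
  refine (abs_it_le σ k b x).trans ?_
  have := it_mono σ k (f := fun y => |b y|) (g := fun _ => B) hb x
  rwa [it_const] at this

lemma cs_bdd {b : G → ℝ} {B : ℝ} (hb : ∀ x, |b x| ≤ B) (n : ℕ) (x : G) : |cs σ n b x| ≤ B := by
  unfold cs
  have hn : (0 : ℝ) < (n : ℝ) + 1 := by positivity
  rw [abs_div, abs_of_pos hn, div_le_iff₀ hn]
  refine (Finset.abs_sum_le_sum_abs _ _).trans ?_
  refine (Finset.sum_le_sum fun k _ => it_bdd hb k x).trans ?_
  rw [Finset.sum_const, Finset.card_range, nsmul_eq_mul]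
  push_cast
  linarith

lemma cs_translate (n : ℕ) (g : G) (b : G → ℝ) (x : G) :
    cs σ n (fun y => b (g * y)) x = cs σ n b (g * x) := by
  unfold cs; simp only [it_translate]

lemma avg_cs (n : ℕ) (b : G → ℝ) (x : G) :
    avg σ (cs σ n b) x - cs σ n b x = (it σ (n + 1) b x - b x) / ((n : ℝ) + 1) := by
  have h1 : avg σ (cs σ n b) x = (∑ k ∈ Finset.range (n + 1), it σ (k + 1) b x) / ((n : ℝ) + 1) := by
    have h2 : cs σ n b = fun x => ((n : ℝ) + 1)⁻¹ * ∑ k ∈ Finset.range (n + 1), it σ k b x := by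
      funext x; unfold cs; rw [div_eq_inv_mul]
    rw [h2, avg_smul, avg_sum, div_eq_inv_mul]
    congr 1
    apply Finset.sum_congr rfl
    intro k _
    rw [it_succ']
  rw [h1]
  unfold cs
  rw [← sub_div, ← Finset.sum_sub_distrib, Finset.sum_range_sub (fun k => it σ k b x)]
  rw [it_zero]

lemma cs_const (n : ℕ) (c : ℝ) (x : G) : cs σ n (fun _ => c) x = c := by
  unfold cs
  simp only [it_const, Finset.sum_const, Finset.card_range, nsmul_eq_mul]
  push_cast
  field_simp

end cesaro

lemma it_sum (σ : ι → G) {κ : Type*} (s : Finset κ) (k : ℕ) (b : κ → G → ℝ) (x : G) :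
    it σ k (fun y => ∑ j ∈ s, b j y) x = ∑ j ∈ s, it σ k (b j) x := by
  induction k generalizing x with
  | zero => rfl
  | succ k ih =>
    rw [it_succ']
    have h1 : it σ k (fun y => ∑ j ∈ s, b j y) = fun y => ∑ j ∈ s, it σ k (b j) y := funext ih
    rw [h1, avg_sum]
    apply Finset.sum_congr rfl
    intro j _
    rw [it_succ']

lemma cs_sum (σ : ι → G) {κ : Type*} (s : Finset κ) (n : ℕ) (b : κ → G → ℝ) (x : G) :
    cs σ n (fun y => ∑ j ∈ s, b j y) x = ∑ j ∈ s, cs σ n (b j) x := by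
  unfold cs
  simp only [it_sum]
  rw [Finset.sum_comm, Finset.sum_div]

lemma cs_neg (σ : ι → G) (n : ℕ) (b : G → ℝ) (x : G) :
    cs σ n (fun y => -b y) x = -cs σ n b x := by
  have h : ∀ k, it σ k (fun y => -b y) x = -it σ k b x := by
    intro k
    have := it_smul σ k (-1) b x
    simpa using this
  unfold cs
  simp only [h, Finset.sum_neg_distrib, neg_div]

lemma tendsto_one_div (U : Ultrafilter ℕ) (hU : (U : Filter ℕ) ≤ atTop) (C : ℝ) :
    Tendsto (fun n : ℕ => C / ((n : ℝ) + 1)) U (𝓝 0) := by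
  have h1 : Tendsto (fun n : ℕ => C / ((n : ℝ) + 1)) atTop (𝓝 0) := by
    have h2 := tendsto_one_div_add_atTop_nhds_zero_nat (𝕜 := ℝ)
    have h3 := h2.const_mul C
    simp only [mul_zero] at h3
    refine h3.congr fun n => by ring
  exact h1.mono_left hU

/-- the mean of a bounded function -/
lemma mean_const {σ : ι → G} (hσ : GenData σ) (hfin : FinHF σ) (U : Ultrafilter ℕ)
    (hU : (U : Filter ℕ) ≤ atTop) {b : G → ℝ} {B : ℝ} (hb : ∀ x, |b x| ≤ B) (x y : G) :
    ul U (fun n => cs σ n b x) = ul U (fun n => cs σ n b y) := by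
  obtain ⟨i0, hi0⟩ := hσ.lazy
  haveI : Nonempty ι := ⟨i0⟩
  have ht : ∀ x, Tendsto (fun n => cs σ n b x) U (𝓝 (ul U (fun n => cs σ n b x))) := fun x =>
    ul_tendsto U (fun n => cs_bdd hb n x)
  have hB0 : 0 ≤ B := (abs_nonneg _).trans (hb 1)
  refine liouville hσ hfin (f := fun x => ul U (fun n => cs σ n b x)) ?_ (B := B) ?_ x y
  · funext x
    have h1 := tendsto_avg σ (a := fun n => cs σ n b) ht x
    have h2 : Tendsto (fun n => avg σ (cs σ n b) x - cs σ n b x) U (𝓝 0) := by
      refine squeeze_zero_norm (a := fun n : ℕ => 2 * B / ((n : ℝ) + 1)) (fun n => ?_)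
        (tendsto_one_div U hU _)
      rw [avg_cs, Real.norm_eq_abs, abs_div, abs_of_pos (by positivity : (0 : ℝ) < (n : ℝ) + 1)]
      apply div_le_div_of_nonneg_right _ (by positivity)
      have h3 := it_bdd (σ := σ) hb (n + 1) x
      have h4 := hb x
      rw [abs_le] at h3 h4 ⊢
      constructor <;> linarith
    have h3 := (h1.sub (ht x))
    exact sub_eq_zero.mp (tendsto_nhds_unique h3 h2)
  · intro x
    exact le_of_tendsto (ht x).abs (Eventually.of_forall fun n => cs_bdd hb n x)

/-- **(B)** the drift is zero -/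
theorem drift_zero {σ : ι → G} (hσ : GenData σ) (hfin : FinHF σ) {F : G → ℝ} {L c : ℝ}
    (hL : ∀ x j, |F (x * σ j) - F x| ≤ L) (hF : ∀ x, avg σ F x = F x + c) : c = 0 := by
  classical
  obtain ⟨i0, hi0⟩ := hσ.lazy
  haveI : Nonempty ι := ⟨i0⟩
  obtain ⟨τ, hτ⟩ := hσ.sym
  set U : Ultrafilter ℕ := Filter.hyperfilter ℕ with hUdef
  have hU : (U : Filter ℕ) ≤ atTop := by
    rw [hUdef, ← Nat.cofinite_eq_atTop]; exact Filter.hyperfilter_le_cofinite
  let b : ι → G → ℝ := fun j x => F (x⁻¹ * σ j) - F x⁻¹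
  have hb : ∀ j x, |b j x| ≤ L := fun j x => hL x⁻¹ j
  let m : ι → ℝ := fun j => ul U (fun n => cs σ n (b j) 1)
  have hm : ∀ j, Tendsto (fun n => cs σ n (b j) 1) U (𝓝 (m j)) := fun j =>
    ul_tendsto U (fun n => cs_bdd (hb j) n 1)
  -- the sum
  have hsum : ∀ x, ∑ j, b j x = (Fintype.card ι : ℝ) * c := by
    intro x
    have h1 := hF x⁻¹
    rw [avg_def] at h1
    have hc := card_pos' (ι := ι)
    rw [div_eq_iff hc.ne'] at h1
    simp only [b, Finset.sum_sub_distrib, Finset.sum_const, Finset.card_univ, nsmul_eq_mul]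
    rw [h1]; ring
  have h1 : ∑ j, m j = (Fintype.card ι : ℝ) * c := by
    have h2 : Tendsto (fun n => ∑ j, cs σ n (b j) 1) U (𝓝 (∑ j, m j)) :=
      tendsto_finset_sum _ fun j _ => hm j
    have h3 : ∀ n, ∑ j, cs σ n (b j) 1 = (Fintype.card ι : ℝ) * c := by
      intro n
      rw [← cs_sum]
      have : (fun y => ∑ j, b j y) = fun _ => (Fintype.card ι : ℝ) * c := funext hsum
      rw [this, cs_const]
    simp only [h3] at h2
    exact tendsto_nhds_unique h2 tendsto_const_nhds
  have h2 : ∀ j, m (τ j) = -m j := by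
    intro j
    have e : b (τ j) = fun x => -b j (σ j * x) := by
      funext x
      simp only [b]
      rw [hτ, mul_inv_rev, inv_mul_cancel_right]
      ring
    have h3 : ∀ n, cs σ n (b (τ j)) 1 = -cs σ n (b j) (σ j) := by
      intro n
      rw [e, cs_neg, cs_translate, mul_one]
    have h4 : m j = ul U (fun n => cs σ n (b j) (σ j)) := mean_const hσ hfin U hU (hb j) 1 (σ j)
    have h5 : Tendsto (fun n => cs σ n (b j) (σ j)) U (𝓝 (m j)) := by
      rw [h4]; exact ul_tendsto U (fun n => cs_bdd (hb j) n (σ j))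
    have h6 := hm (τ j)
    simp only [h3] at h6
    exact tendsto_nhds_unique h6 h5.neg
  have h3 : ∑ j, m j = -∑ j, m j := by
    conv_lhs => rw [← Equiv.sum_comp τ m]
    rw [← Finset.sum_neg_distrib]
    exact Finset.sum_congr rfl fun j _ => h2 j
  have hc := card_pos' (ι := ι)
  have h4 : ∑ j, m j = 0 := by linarith
  rw [h4] at h1
  rcases mul_eq_zero.mp h1.symm with h5 | h5
  · exact absurd h5 hc.ne'
  · exact h5

end Pool.LO65
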